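import Pool.Agent.R562.RS.Game

set_option autoImplicit false

/-!
# Reductions to 2-to-1 games which are computed by formulas

The definitions used in the statement are `sens` and `avgSens` (average sensitivity) and `parity` in
`Pool/Agent/R562/RS/Core.lean`, `Formula`, `Formula.eval` and `Formula.size` in
`Pool/Agent/R562/RS/Khr.lean`, and `ToOne`, `Sat`, `ValueOne`, `ValueLe`, `GameCorrect`,
`GameReduction` in `Pool/Agent/R562/RS/Game.lean`.

A reduction from a Boolean function `f` of `N` bits to the gap problem of 2-to-1 games (value one
versus value at most `δ`) computes a list of constraints `(u, v, π)`, each of which is encoded by `b`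
bits. If every bit is computed by a De Morgan formula with at most `S` leaves (for every value of
the random seed), then `b √S ≥ (1 - 2 e) (1 - δ) avgSens f`, where `e` is the error probability of
the reduction. For parity this means `S ≥ c N ^ 2 / b ^ 2`, for games of size `N ^ O(1)` with a fixed
alphabet `S ≥ c' N ^ 2 / log ^ 2 N`, while parity has formulas of size `O(N ^ 2)`. So 2-to-1 games
with perfect completeness are not hard for NP, or even for parity, under reductions computed by
(randomized) formulas of size `N ^ (2 - c)`, for every soundness `δ < 1`.

Proof: A game of value one and a game of value at most `δ` differ in a fraction `1 - δ` of the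
constraints. So some bit has average sensitivity at least `(1 - 2 e) (1 - δ) avgSens f / b`. By
Khrapchenko's theorem the average sensitivity of a formula is at most the square root of its size.
-/

namespace Pool.Agent.Results.MP_ec946a_lc.FormulaReductions

open Pool.Agent.R562.RS

theorem result :
    (∀ (N S m q b : ℕ) (U V Ω : Type) [Fintype Ω] [Nonempty Ω] (δ e : ℝ)
      (f : (Fin N → Bool) → Bool)
      (g : Ω → (Fin N → Bool) → Fin m → U × V × (Fin q → Fin q))
      (code : U × V × (Fin q → Fin q) → Fin b → Bool),
      1 ≤ m → δ ≤ 1 → Function.Injective code → GameReduction 2 δ e f g →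
      (∀ ω j l, ∃ F : Formula N, F.size ≤ S ∧ ∀ x, F.eval x = code (g ω x j) l) →
      (1 - 2 * e) * (1 - δ) * avgSens f ≤ b * Real.sqrt S) ∧
    ∀ N : ℕ, avgSens (parity N) = N := by
  refine ⟨?_, avgSens_parity⟩
  intro N S m q b U V Ω _ _ δ e f g code hm hδ hcode hr hF
  have : Nonempty (Fin m) := ⟨⟨0, by omega⟩⟩
  exact game_formula hδ code hcode hr hF

end Pool.Agent.Results.MP_ec946a_lc.FormulaReductions
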